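import Pool.Agent.Work.MP_a97ec2_h29.Interface

/-!
# OM2: `ω₂` is regular
-/

namespace Pool.Rbw

open Cardinal Ordinal

theorem OM2_succ : ℵ_ (2 : Ordinal.{0}) = Order.succ (ℵ_ (1 : Ordinal.{0})) := by
  rw [Cardinal.succ_aleph, one_add_one_eq_two]

theorem p_OM2 : T_OM2 := by
  intro Ω _ _ hΩ
  refine ⟨fun a => ?_, fun S hS => ?_⟩
  · have h1 : Ordinal.typein (fun a b : Ω => a < b) a < ω_ 2 := by
      rw [← hΩ]; exact Ordinal.typein_lt_type _ a
    rw [← Cardinal.ord_aleph, Cardinal.lt_ord, Ordinal.card_typein, OM2_succ,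
      Order.lt_succ_iff] at h1
    exact h1
  · have hc : Order.cof Ω = ℵ_ 2 := by
      rw [← Ordinal.cof_type Ω, hΩ]
      have h2 : (ℵ_ (2 : Ordinal.{0})).IsRegular := by
        have := isRegular_aleph_add_one (1 : Ordinal.{0})
        rwa [one_add_one_eq_two] at this
      exact h2.cof_omega_eq
    have h3 : ¬ IsCofinal S := by
      intro h
      have h4 := Order.cof_le h
      rw [hc, OM2_succ, Order.succ_le_iff] at h4
      exact absurd hS (not_le.mpr h4)
    unfold IsCofinal at h3
    push Not at h3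
    exact h3

end Pool.Rbw
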