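import Pool.Agent.Work.MP_a97ec2_h29.Interface

namespace Pool.Rbw

open Cardinal Ordinal

theorem S1x_add_one {a : Cardinal.{0}} (h : a ≤ ℵ_ 1) : a + 1 ≤ ℵ_ 1 := by
  have h0 : ℵ₀ ≤ ℵ_ (1 : Ordinal.{0}) := aleph0_le_aleph 1
  calc a + 1 ≤ ℵ_ 1 + ℵ_ 1 := add_le_add h (one_le_aleph0.trans h0)
    _ = ℵ_ 1 := Cardinal.add_eq_self h0

theorem p_S1 : T_S1 := by
  intro Ω _ _ hΩ h
  have hH : ∀ c : Ω, ∃ δ, c < δ ∧ ∀ c' ≤ c, h c' < δ := by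
    intro c
    have hcard : #(insert c (h '' Set.Iic c) : Set Ω) ≤ ℵ_ 1 := by
      refine (Cardinal.mk_insert_le).trans (S1x_add_one (Cardinal.mk_image_le.trans ?_))
      rw [← Set.Iio_insert]
      exact (Cardinal.mk_insert_le).trans (S1x_add_one (hΩ.small c))
    obtain ⟨δ, hδ⟩ := hΩ.big _ hcard
    exact ⟨δ, hδ c (Set.mem_insert _ _),
      fun c' hc' => hδ _ (Set.mem_insert_of_mem _ ⟨c', hc', rfl⟩)⟩
  choose H hH1 hH2 using hH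
  obtain ⟨d0, -⟩ := hΩ.big ∅ (by simp)
  let s : ℕ → Ω := fun n => Nat.rec d0 (fun _ x => H x) n
  have hcount : #(Set.range s) ≤ ℵ_ 1 :=
    ((Set.countable_range s).le_aleph0).trans (aleph0_le_aleph 1)
  obtain ⟨δ, hδ⟩ := hΩ.big (Set.range s) hcount
  let P : Set Ω := {x | ∀ n, s n < x}
  have hP : P.Nonempty := ⟨δ, fun n => hδ _ ⟨n, rfl⟩⟩
  obtain ⟨d, hd, hmin⟩ := WellFounded.has_min (wellFounded_lt (α := Ω)) P hP
  have hz : ∀ z < d, ∃ n, z < s n := by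
    intro z hz
    have hzP : z ∉ P := fun h1 => hmin z h1 hz
    have h2 : ∃ n, ¬ s n < z := by
      by_contra hc
      push Not at hc
      exact hzP hc
    obtain ⟨n, hn⟩ := h2
    exact ⟨n + 1, lt_of_le_of_lt (not_lt.mp hn) (hH1 (s n))⟩
  refine ⟨d, ⟨s, hd, hz⟩, fun c hc => ?_⟩
  obtain ⟨n, hn⟩ := hz c hc
  exact (hH2 (s n) c hn.le).trans (hd (n + 1))

end Pool.Rbw
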