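import Pool.Agent.Work.MP_a97ec2_h29.Interface

/-!
# UNB: uncountably many elements of a stationary set below a bound
-/

set_option autoImplicit false

namespace Pool.Rbw

open Cardinal Ordinal

theorem p_UNB : T_UNB := by
  intro Ω _ _ hO T hT hS z
  have hub : ∀ y : Ω, ∃ e ∈ T, z < e ∧ y < e := by
    intro y
    obtain ⟨d, hd, hd2⟩ := hS (fun _ => max y z)
    obtain ⟨s, hs, _⟩ := hT d hd
    have h1 := hd2 (s 0) (hs 0)
    exact ⟨d, hd, lt_of_le_of_lt (le_max_right _ _) h1, lt_of_le_of_lt (le_max_left _ _) h1⟩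
  have hbig : ℵ_ 1 < #{e : Ω | e ∈ T ∧ z < e} := by
    by_contra hcon
    obtain ⟨δ, hδ⟩ := hO.big _ (not_lt.1 hcon)
    obtain ⟨e, he, hze, hδe⟩ := hub δ
    exact lt_asymm hδe (hδ e ⟨he, hze⟩)
  obtain ⟨p, hp, hpc⟩ := Cardinal.le_mk_iff_exists_subset.1 hbig.le
  obtain ⟨δ, hδ⟩ := hO.big p hpc.le
  refine ⟨δ, fun hc => ?_⟩
  have hpcount : p.Countable := by
    refine hc.mono fun e he => ?_
    exact ⟨(hp he).1, (hp he).2, hδ e he⟩
  have h1 : #p ≤ ℵ₀ := Cardinal.mk_le_aleph0_iff.2 hpcount.to_subtype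
  rw [hpc] at h1
  exact absurd h1 (not_le.2 Cardinal.aleph0_lt_aleph_one)

end Pool.Rbw
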