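import Mathlib

/-!
# Closed rainbow sets of every countable order type (MP_a97ec2_lc): definitions and blocks

`Ω` is a well-ordered type of order type `ω₂`, `Θ` a countable well-ordered type.
-/

namespace Pool.Rbw

open Cardinal Ordinal

variable {Ω : Type} [LinearOrder Ω] [WellFoundedLT Ω] {Θ : Type} [LinearOrder Θ] [WellFoundedLT Θ]

/-- what is used about `ω₂`: initial segments have size at most `ℵ₁`, sets of size at most `ℵ₁` are
bounded -/
structure IsOmega2 (Ω : Type) [LinearOrder Ω] : Prop where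
  small : ∀ a : Ω, #(Set.Iio a) ≤ ℵ_ 1
  big : ∀ S : Set Ω, #S ≤ ℵ_ 1 → ∃ δ : Ω, ∀ s ∈ S, s < δ

/-- `d` is the limit of a sequence of smaller elements -/
def Om (d : Ω) : Prop := ∃ s : ℕ → Ω, (∀ n, s n < d) ∧ ∀ z < d, ∃ n, z < s n

/-- `T` meets the set of closure points of every function (`T` is stationary) -/
def Stat (T : Set Ω) : Prop := ∀ h : Ω → Ω, ∃ d ∈ T, ∀ c < d, h c < d

/-- the `d` of cofinality `ω` above the finite set `b` for which `f(·,d)` is injective on `b` -/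
def TT (f : Ω → Ω → Ω) (b : Finset Ω) : Set Ω :=
  {d | Om d ∧ (∀ a ∈ b, a < d) ∧ ∀ a ∈ b, ∀ a' ∈ b, f a d = f a' d → a = a'}

/-- the classes of `f(·,d)` are countable -/
def Bdd (f : Ω → Ω → Ω) : Prop := ∀ d c : Ω, {a : Ω | a < d ∧ f a d = c}.Countable

/-- the hierarchy `W ν` -/
structure IsW (f : Ω → Ω → Ω) (W : Θ → Set Ω) : Prop where
  om : ∀ ν, ∀ d ∈ W ν, Om d
  unc : ∀ ν, ∀ d ∈ W ν, ∀ ν' < ν, ∀ b : Finset Ω, (∀ a ∈ b, a < d) → Stat (TT f b) →
    ∀ z < d, ¬ {e : Ω | e ∈ TT f b ∧ e ∈ W ν' ∧ z < e ∧ e < d}.Countable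
  club : ∀ ν, ∃ h : Ω → Ω, ∀ d, Om d → (∀ c < d, h c < d) → d ∈ W ν

/-- good finite approximations -/
structure Good (f : Ω → Ω → Ω) (W : Θ → Set Ω) (F : Finset Θ) (x : Θ → Ω) : Prop where
  mono : ∀ μ ∈ F, ∀ ν ∈ F, μ < ν → x μ < x ν
  mem : ∀ ν ∈ F, x ν ∈ W ν
  stat : ∀ G ⊆ F, (∀ μ ∈ G, ∀ μ' ∈ F, μ' < μ → μ' ∈ G) → Stat (TT f (G.image x))
  tr : ∀ ν ∈ F, ∀ μ ∈ F, ∀ μ' ∈ F, μ < ν → μ' < ν → f (x μ) (x ν) = f (x μ') (x ν) → μ = μ'

/-! ## Blocks -/

/-- OM2: `ω₂` is regular (ordinal arithmetic of Mathlib) -/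
def T_OM2 : Prop := ∀ (Ω : Type) [LinearOrder Ω] [WellFoundedLT Ω],
  Ordinal.type (fun a b : Ω => a < b) = ω_ 2 → IsOmega2 Ω

/-- S1: the elements of cofinality `ω` are stationary: given `h`, let `H c` be a bound for
`h` on `Iic c` (by `small` and `big`), iterate `s (n+1) > max (H (s n)) (s n)` and let `d` be the
least upper bound of the `s n` (least element above all of them: the set is countable, `big`) -/
def T_S1 : Prop := ∀ (Ω : Type) [LinearOrder Ω] [WellFoundedLT Ω], IsOmega2 Ω →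
  Stat {d : Ω | Om d}

/-- ZC: if `TT f b` is stationary then `TT f (insert x b)` is stationary for all but countably many
`x`.  Otherwise take `X` of size `ℵ₁` among the bad `x`, `h_x` a function without closure point in
`TT f (insert x b)`, `h c` above all `h_x c`, `x ∈ X` (`big`), `d ∈ TT f b` closed under `h`
(`d` is not the least element since it is a limit, so `d` is above `X`); every `x ∈ X` is in the
countable set of the `a < d` with `f a d = f y d` for some `y ∈ b` -/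
def T_ZC : Prop := ∀ (Ω : Type) [LinearOrder Ω] [WellFoundedLT Ω], IsOmega2 Ω →
  ∀ f : Ω → Ω → Ω, Bdd f → ∀ b : Finset Ω, Stat (TT f b) →
    {x : Ω | ¬ Stat (TT f (insert x b))}.Countable

/-- UNB: a stationary set has uncountably many elements between `z` and some `δ`: it is unbounded
(constant functions), so its part above `z` has more than `ℵ₁` elements (`big`); take a subset of
size `ℵ₁` and a bound `δ`.  Here all elements of `T` are limits. -/
def T_UNB : Prop := ∀ (Ω : Type) [LinearOrder Ω] [WellFoundedLT Ω], IsOmega2 Ω →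
  ∀ T : Set Ω, (∀ d ∈ T, Om d) → Stat T → ∀ z : Ω, ∃ δ : Ω,
    ¬ {e : Ω | e ∈ T ∧ z < e ∧ e < δ}.Countable

/-- WW: the hierarchy exists: `W ν` is defined by recursion on `ν` by `om` and `unc`; for `club`,
by induction `T ∩ W ν'` is stationary for every stationary `T` (the closure points of
`max h h_ν'`), so `UNB` gives `δ (b, ν', z)`, and `h_ν c` is a bound (`big`) for the
`δ (b, ν', z)` with `b` a finite subset of `Iic c`, `ν' < ν`, `z ≤ c` (at most `ℵ₁` triples) -/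
def T_WW : Prop := ∀ (Ω : Type) [LinearOrder Ω] [WellFoundedLT Ω], IsOmega2 Ω →
  ∀ (Θ : Type) [LinearOrder Θ] [WellFoundedLT Θ] [Countable Θ], ∀ f : Ω → Ω → Ω,
    ∃ W : Θ → Set Ω, IsW f W

/-- START: the top value: outside the countable set `{x | ¬ Stat (TT f {x})}` (ZC for `b = ∅`, S1),
which is bounded by `big` -/
def T_START : Prop := ∀ (Ω : Type) [LinearOrder Ω] [WellFoundedLT Ω], IsOmega2 Ω →
  ∀ (Θ : Type) [LinearOrder Θ] [WellFoundedLT Θ] [Countable Θ] [OrderTop Θ],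
    ∀ (f : Ω → Ω → Ω) (W : Θ → Set Ω), Bdd f → IsW f W → ∃ d : Ω, Good f W {⊤} (fun _ => d)

/-- STEP: insertion of `ν` below its successor `μ₁` in `F`: by `unc` for `x μ₁`,
`b = (F.filter (· < ν)).image x` and the maximum of `z` and `b` there are uncountably many `v`; avoid
the countable sets of ZC for `G.image x` (`G ⊆ F`) and, for every `μ ∈ F` above `ν` and every
`μ' ∈ F` below `μ`, the `a < x μ` with `f a (x μ) = f (x μ') (x μ)` -/
def T_STEP : Prop := ∀ (Ω : Type) [LinearOrder Ω] [WellFoundedLT Ω], IsOmega2 Ω →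
  ∀ (Θ : Type) [LinearOrder Θ] [WellFoundedLT Θ] [Countable Θ],
    ∀ (f : Ω → Ω → Ω) (W : Θ → Set Ω), Bdd f → IsW f W → ∀ (F : Finset Θ) (x : Θ → Ω),
      Good f W F x → ∀ ν ∉ F, ∀ μ₁ ∈ F, ν < μ₁ → (∀ μ ∈ F, ν < μ → μ₁ ≤ μ) → ∀ z < x μ₁,
        ∃ v : Ω, z < v ∧ v < x μ₁ ∧ Good f W (insert ν F) (Function.update x ν v)

/-- LIM: enumerate `Θ` (first the top), start with START, insert the elements one after the other
with STEP, at stage `n` with `z` the maximum of the first `n` terms of the sequence (from `Om`) of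
`x μ₁`; for a limit `lam` infinitely many stages have `μ₁ = lam` -/
def T_LIM : Prop := ∀ (Ω : Type) [LinearOrder Ω] [WellFoundedLT Ω], IsOmega2 Ω →
  ∀ (Θ : Type) [LinearOrder Θ] [WellFoundedLT Θ] [Countable Θ] [OrderTop Θ],
    ∀ (f : Ω → Ω → Ω), Bdd f → ∃ x : Θ → Ω, StrictMono x ∧
      (∀ ν μ μ' : Θ, μ < ν → μ' < ν → f (x μ) (x ν) = f (x μ') (x ν) → μ = μ') ∧
      ∀ lam : Θ, (∃ μ, μ < lam) → (∀ μ < lam, ∃ ν, μ < ν ∧ ν < lam) →
        ∀ z < x lam, ∃ ν < lam, z < x ν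

/-- `f : [ω₂]² → ω₂` is normal -/
def Normal (f : Ω → Ω → Ω) : Prop :=
  ∀ a b a' b' : Ω, a < b → a' < b' → f a b = f a' b' → b = b'

/-- `f` is `ω`-bounded: every colour class is countable -/
def OmegaBounded (f : Ω → Ω → Ω) : Prop :=
  ∀ c : Ω, {p : Ω × Ω | p.1 < p.2 ∧ f p.1 p.2 = c}.Countable

/-- `A` is `f`-rainbow: `f` is injective on the pairs of `A` -/
def Rainbow (f : Ω → Ω → Ω) (A : Set Ω) : Prop :=
  ∀ a ∈ A, ∀ b ∈ A, ∀ a' ∈ A, ∀ b' ∈ A, a < b → a' < b' → f a b = f a' b' → a = a' ∧ b = b'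

/-- `A` is closed: every `γ` which is below some element of `A` and is the least upper bound of
the non-empty set of the elements of `A` below `γ` belongs to `A` -/
def Closed (A : Set Ω) : Prop :=
  ∀ γ : Ω, (∃ a ∈ A, γ < a) → (A ∩ Set.Iio γ).Nonempty → IsLUB (A ∩ Set.Iio γ) γ → γ ∈ A

/-- FIN: the theorem: for every countable ordinal `θ` there is a closed rainbow set of order type
`θ` (apply LIM to the type of `θ + 1` and restrict) -/
def T_FIN : Prop := ∀ (Ω : Type) [LinearOrder Ω] [WellFoundedLT Ω],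
  Ordinal.type (fun a b : Ω => a < b) = ω_ 2 → ∀ f : Ω → Ω → Ω, Normal f → OmegaBounded f →
    ∀ (Θ : Type) [LinearOrder Θ] [WellFoundedLT Θ] [Countable Θ],
      ∃ A : Set Ω, Nonempty (Θ ≃o A) ∧ Closed A ∧ Rainbow f A

end Pool.Rbw
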