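import Mathlib
import Pool.Agent.Work.MP_a97ec2_h29.Interface

/-!
# Block WW: the hierarchy `W ν`
-/

namespace Pool.Rbw

open Cardinal Ordinal

namespace WW

variable {Ω : Type} [LinearOrder Ω] [WellFoundedLT Ω] {Θ : Type} [LinearOrder Θ] [WellFoundedLT Θ]

/-- the recursion -/
noncomputable def Wf (f : Ω → Ω → Ω) : Θ → Set Ω :=
  (wellFounded_lt (α := Θ)).fix (C := fun _ => Set Ω) (fun ν rec =>
    {d | Om d ∧ ∀ ν' (h : ν' < ν), ∀ b : Finset Ω, (∀ a ∈ b, a < d) → Stat (TT f b) →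
      ∀ z < d, ¬ {e : Ω | e ∈ TT f b ∧ e ∈ rec ν' h ∧ z < e ∧ e < d}.Countable})

theorem mem_Wf (f : Ω → Ω → Ω) (ν : Θ) (d : Ω) : d ∈ Wf f ν ↔
    Om d ∧ ∀ ν' < ν, ∀ b : Finset Ω, (∀ a ∈ b, a < d) → Stat (TT f b) →
      ∀ z < d, ¬ {e : Ω | e ∈ TT f b ∧ e ∈ Wf f ν' ∧ z < e ∧ e < d}.Countable := by
  unfold Wf
  rw [WellFounded.fix_eq]
  rfl

theorem mk_Iic (hΩ : IsOmega2 Ω) (c : Ω) : #(Set.Iic c) ≤ ℵ_ 1 := by
  have h1 : (Set.Iic c : Set Ω) = insert c (Set.Iio c) := by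
    ext x
    simp only [Set.mem_Iic, Set.mem_insert_iff, Set.mem_Iio]
    exact le_iff_eq_or_lt
  rw [h1]
  refine (Cardinal.mk_insert_le).trans ?_
  have h2 := hΩ.small c
  have h3 : (ℵ₀ : Cardinal.{0}) ≤ ℵ_ 1 := Cardinal.aleph0_le_aleph 1
  calc #(Set.Iio c) + 1 ≤ ℵ_ 1 + 1 := by gcongr
    _ = ℵ_ 1 := Cardinal.add_one_eq h3

theorem stat_inter {T U : Set Ω} (hT : Stat T) (hTo : ∀ d ∈ T, Om d) {h0 : Ω → Ω}
    (h : ∀ d, Om d → (∀ c < d, h0 c < d) → d ∈ U) : Stat {e | e ∈ T ∧ e ∈ U} := by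
  intro k
  obtain ⟨d, hd, hc⟩ := hT (fun c => max (k c) (h0 c))
  refine ⟨d, ⟨hd, h d (hTo d hd) fun c hcd => ?_⟩, fun c hcd => ?_⟩
  · exact lt_of_le_of_lt (le_max_right _ _) (hc c hcd)
  · exact lt_of_le_of_lt (le_max_left _ _) (hc c hcd)

theorem club (hU : T_UNB) (hΩ : IsOmega2 Ω) [Countable Θ] (f : Ω → Ω → Ω) (ν : Θ) :
    ∃ h : Ω → Ω, ∀ d, Om d → (∀ c < d, h c < d) → d ∈ Wf f ν := by
  classical
  induction ν using WellFoundedLT.induction with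
  | ind ν ih =>
    have key : ∀ (ν' : Θ) (b : Finset Ω) (z : Ω), ∃ δ : Ω, ν' < ν → Stat (TT f b) →
        ¬ {e : Ω | (e ∈ TT f b ∧ e ∈ Wf f ν') ∧ z < e ∧ e < δ}.Countable := by
      intro ν' b z
      by_cases h1 : ν' < ν ∧ Stat (TT f b)
      · obtain ⟨h0, hh0⟩ := ih ν' h1.1
        have hs := stat_inter h1.2 (fun d hd => hd.1) hh0
        obtain ⟨δ, hδ⟩ := hU Ω hΩ {e | e ∈ TT f b ∧ e ∈ Wf f ν'} (fun d hd => hd.1.1) hs z
        exact ⟨δ, fun _ _ => hδ⟩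
      · exact ⟨z, fun h2 h3 => absurd ⟨h2, h3⟩ h1⟩
    choose δ hδ using key
    have bound : ∀ c : Ω, ∃ B : Ω, ∀ (ν' : Θ) (b : Finset Ω) (z : Ω), (∀ a ∈ b, a ≤ c) → z ≤ c →
        δ ν' b z < B := by
      intro c
      let g : (List (Set.Iic c)) × Θ × (Set.Iic c) → Ω :=
        fun p => δ p.2.1 ((p.1.map Subtype.val).toFinset) p.2.2
      have hcard : #(Set.range g) ≤ ℵ_ 1 := by
        refine Cardinal.mk_range_le.trans ?_
        have h3 : (ℵ₀ : Cardinal.{0}) ≤ ℵ_ 1 := Cardinal.aleph0_le_aleph 1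
        have h4 : #(List (Set.Iic c)) ≤ ℵ_ 1 :=
          (Cardinal.mk_list_le_max _).trans (max_le h3 (mk_Iic hΩ c))
        have h5 : #Θ ≤ ℵ_ 1 := (Cardinal.mk_le_aleph0 (α := Θ)).trans h3
        rw [Cardinal.mk_prod, Cardinal.mk_prod]
        simp only [Cardinal.lift_id]
        calc #(List (Set.Iic c)) * (#Θ * #(Set.Iic c)) ≤ ℵ_ 1 * (ℵ_ 1 * ℵ_ 1) := by
              gcongr
              exact mk_Iic hΩ c
          _ = ℵ_ 1 := by rw [Cardinal.mul_eq_self h3, Cardinal.mul_eq_self h3]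
      obtain ⟨B, hB⟩ := hΩ.big _ hcard
      refine ⟨B, fun ν' b z hb hz => ?_⟩
      let l : List (Set.Iic c) := b.toList.attach.map
        (fun a => ⟨a.1, hb a.1 (Finset.mem_toList.1 a.2)⟩)
      have hl : (l.map Subtype.val).toFinset = b := by
        ext a
        simp [l]
      have := hB (g (l, ν', ⟨z, hz⟩)) ⟨_, rfl⟩
      simpa only [g, hl] using this
    choose B hB using bound
    refine ⟨B, fun d hd hc => (mem_Wf f ν d).2 ⟨hd, fun ν' hν' b hb hs z hz => ?_⟩⟩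
    -- a bound `c < d` of `b` and `z`
    obtain ⟨c, hcd, hbc, hzc⟩ : ∃ c < d, (∀ a ∈ b, a ≤ c) ∧ z ≤ c := by
      have hne : (insert z b).Nonempty := Finset.insert_nonempty _ _
      refine ⟨(insert z b).max' hne, ?_, fun a ha => ?_, ?_⟩
      · have := Finset.max'_mem (insert z b) hne
        rcases Finset.mem_insert.1 this with h1 | h1
        · rw [h1]; exact hz
        · exact hb _ h1
      · exact Finset.le_max' _ _ (Finset.mem_insert_of_mem ha)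
      · exact Finset.le_max' _ _ (Finset.mem_insert_self _ _)
    intro hcount
    refine hδ ν' b z hν' hs (hcount.mono ?_)
    rintro e ⟨⟨h1, h2⟩, h3, h4⟩
    exact ⟨h1, h2, h3, h4.trans ((hB c ν' b z hbc hzc).trans (hc c hcd))⟩

end WW

theorem p_WW (hU : T_UNB) : T_WW := by
  intro Ω _ _ hΩ Θ _ _ _ f
  refine ⟨WW.Wf f, ⟨fun ν d hd => ((WW.mem_Wf f ν d).1 hd).1, fun ν d hd => ?_, fun ν => ?_⟩⟩
  · exact ((WW.mem_Wf f ν d).1 hd).2
  · exact WW.club hU hΩ f ν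

end Pool.Rbw
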