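import Mathlib
import Pool.Agent.Work.MP_a97ec2_h29.B_OM2
import Pool.Agent.Work.MP_a97ec2_h29.B_S1x
import Pool.Agent.Work.MP_a97ec2_h29.B_ZCx
import Pool.Agent.Work.MP_a97ec2_h29.B_UNB
import Pool.Agent.Work.MP_a97ec2_h29.B_WW
import Pool.Agent.Work.MP_a97ec2_h29.B_START
import Pool.Agent.Work.MP_a97ec2_h29.B_STEP
import Pool.Agent.Work.MP_a97ec2_h29.B_LIM
import Pool.Agent.Work.MP_a97ec2_h29.B_FIN

/-!
# Closed rainbow sets of every countable order type (MP_a97ec2_lc): assembly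
-/

namespace Pool.Rbw

theorem main : T_FIN :=
  p_FIN p_OM2 (p_LIM (p_WW p_UNB) (p_START p_S1 p_ZCx) (p_STEP p_ZCx))

end Pool.Rbw
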