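import Pool.Agent.Work.MP_a97ec2_h29.InterfaceS

/-!
# MP_a97ec2_lc: block FIN, with a stationary set
-/

namespace Pool.RbwS

open Cardinal Ordinal Pool.Rbw

theorem p_FIN (h1 : Pool.Rbw.T_OM2) (hS1 : T_S1) (h2 : T_LIM) : T_FIN := by
  intro Ω _ _ hΩ S hS hSom f hN hO Θ _ _ _
  have hB : Bdd f := by
    intro d c
    have h := (hO c).preimage_of_injOn (f := fun a : Ω => (a, d)) (by
      intro a _ b _ h
      exact (Prod.ext_iff.1 h).1)
    refine h.mono ?_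
    intro a ha
    exact ha
  have hc : Countable (WithTop Θ) := by
    show Countable (Option Θ)
    infer_instance
  obtain ⟨x, hxS, hx, htr, hlim⟩ := h2 Ω (h1 Ω hΩ) S hSom (hS1 Ω (h1 Ω hΩ) S hS hSom) (WithTop Θ) f hB
  have hy : StrictMono (fun θ : Θ => x (θ : WithTop Θ)) := by
    intro a b hab
    exact hx (WithTop.coe_lt_coe.2 hab)
  refine ⟨Set.range (fun θ : Θ => x (θ : WithTop Θ)), ?_, ⟨hy.orderIso _⟩, ?_, ?_⟩
  · rintro _ ⟨θ, rfl⟩
    exact hxS _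
  · rintro γ ⟨_, ⟨θ0, rfl⟩, hγ⟩ ⟨_, ⟨θ1, rfl⟩, hθ1⟩ hlub
    have hθ1' : x (θ1 : WithTop Θ) < γ := hθ1
    have hne : {θ : Θ | γ ≤ x (θ : WithTop Θ)}.Nonempty := ⟨θ0, hγ.le⟩
    obtain ⟨lam, hlam, hmin⟩ : ∃ lam : Θ, γ ≤ x (lam : WithTop Θ) ∧
        ∀ θ : Θ, θ < lam → x (θ : WithTop Θ) < γ := by
      refine ⟨wellFounded_lt.min _ hne, wellFounded_lt.min_mem _ hne, fun θ hθ => ?_⟩
      by_contra hcon
      exact wellFounded_lt.not_lt_min _ (show θ ∈ {θ : Θ | γ ≤ x (θ : WithTop Θ)} from not_lt.1 hcon) hθ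
    have hbelow : ∀ θ : Θ, x (θ : WithTop Θ) < γ → θ < lam := by
      intro θ hθ
      exact hy.lt_iff_lt.1 (lt_of_lt_of_le hθ hlam)
    have hle : x (lam : WithTop Θ) ≤ γ := by
      by_contra hcon
      rw [not_le] at hcon
      obtain ⟨ν, hν, hν2⟩ := hlim (lam : WithTop Θ) ⟨θ1, WithTop.coe_lt_coe.2 (hbelow θ1 hθ1')⟩ (by
        intro μ hμ
        by_contra hno
        push Not at hno
        obtain ⟨μ0, rfl⟩ := WithTop.ne_top_iff_exists.1 (ne_top_of_lt hμ)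
        have hμ0 : μ0 < lam := WithTop.coe_lt_coe.1 hμ
        have hub : x (μ0 : WithTop Θ) ∈ upperBounds (Set.range (fun θ : Θ => x (θ : WithTop Θ)) ∩
            Set.Iio γ) := by
          rintro _ ⟨⟨θ, rfl⟩, hθ⟩
          have hθ' : x (θ : WithTop Θ) < γ := hθ
          have h3 : θ < lam := hbelow θ hθ'
          have h4 : θ ≤ μ0 := by
            by_contra h5
            rw [not_le] at h5
            exact absurd (hno (θ : WithTop Θ) (WithTop.coe_lt_coe.2 h5))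
              (not_le.2 (WithTop.coe_lt_coe.2 h3))
          exact hy.monotone h4
        exact absurd (hlub.2 hub) (not_le.2 (hmin μ0 hμ0))) γ hcon
      obtain ⟨ν0, rfl⟩ := WithTop.ne_top_iff_exists.1 (ne_top_of_lt hν)
      exact absurd (hmin ν0 (WithTop.coe_lt_coe.1 hν)) (not_lt.2 hν2.le)
    exact ⟨lam, le_antisymm hle hlam⟩
  · rintro _ ⟨μ, rfl⟩ _ ⟨ν, rfl⟩ _ ⟨μ', rfl⟩ _ ⟨ν', rfl⟩ hab hab' he
    simp only at hab hab' he ⊢
    have h3 := hN _ _ _ _ hab hab' he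
    have h4 : ν = ν' := hy.injective h3
    subst h4
    have h5 := htr (ν : WithTop Θ) (μ : WithTop Θ) (μ' : WithTop Θ) (hx.lt_iff_lt.1 hab)
      (hx.lt_iff_lt.1 hab') he
    rw [h5]
    exact ⟨rfl, rfl⟩

end Pool.RbwS
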