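import Pool.Agent.Work.MP_a97ec2_h29.InterfaceS
import Pool.Agent.Work.MP_a97ec2_h29.B_LIM

namespace Pool.RbwS

open Cardinal Ordinal Pool.Rbw

namespace Lim

theorem next {Ω : Type} [LinearOrder Ω] {Θ : Type} [LinearOrder Θ] [OrderTop Θ]
    {S : Set Ω} {f : Ω → Ω → Ω} {W : Θ → Set Ω}
    (hstep : ∀ (F : Finset Θ) (x : Θ → Ω),
      Good S f W F x → ∀ ν ∉ F, ∀ μ₁ ∈ F, ν < μ₁ → (∀ μ ∈ F, ν < μ → μ₁ ≤ μ) → ∀ z < x μ₁,
        ∃ v : Ω, z < v ∧ v < x μ₁ ∧ Good S f W (insert ν F) (Function.update x ν v))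
    (e : ℕ → Θ)
    (z : Ω → ℕ → Ω)
    (hlt : ∀ v, ∀ d ∈ W v, ∀ n, z d n < d) (n : ℕ)
    (s : {p : Finset Θ × (Θ → Ω) // ⊤ ∈ p.1 ∧ Good S f W p.1 p.2}) :
    ∃ s' : {p : Finset Θ × (Θ → Ω) // ⊤ ∈ p.1 ∧ Good S f W p.1 p.2},
      s'.1.1 = insert (e n) s.1.1 ∧ (∀ k ∈ s.1.1, s'.1.2 k = s.1.2 k) ∧
      (e n ∉ s.1.1 → ∀ m ∈ s.1.1, e n < m → (∀ k ∈ s.1.1, e n < k → m ≤ k) →
        z (s.1.2 m) n < s'.1.2 (e n)) := by
  classical
  obtain ⟨⟨F, x⟩, htop, hg⟩ := s
  by_cases hm : e n ∈ F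
  · refine ⟨⟨⟨F, x⟩, htop, hg⟩, ?_, ?_, ?_⟩
    · simp [Finset.insert_eq_of_mem hm]
    · intro k hk; rfl
    · intro h; exact absurd hm h
  · have hne : (F.filter (e n < ·)).Nonempty := by
      refine ⟨⊤, ?_⟩
      rw [Finset.mem_filter]
      refine ⟨htop, lt_of_le_of_ne le_top ?_⟩
      intro h
      exact hm (h ▸ htop)
    have hmin := Finset.min'_mem (F.filter (e n < ·)) hne
    rw [Finset.mem_filter] at hmin
    obtain ⟨h1, h2⟩ := hmin
    set m := (F.filter (e n < ·)).min' hne with hmdef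
    have h3 : ∀ k ∈ F, e n < k → m ≤ k := by
      intro k hk hlt'
      exact Finset.min'_le _ _ (Finset.mem_filter.mpr ⟨hk, hlt'⟩)
    have h4 : z (x m) n < x m := hlt m (x m) (hg.mem m h1) n
    obtain ⟨y, hy1, hy2, hy3⟩ := hstep F x hg (e n) hm m h1 h2 h3 _ h4
    refine ⟨⟨⟨insert (e n) F, Function.update x (e n) y⟩,
      Finset.mem_insert_of_mem htop, hy3⟩, rfl, ?_, ?_⟩
    · intro k hk
      have : k ≠ e n := by
        intro h; exact hm (h ▸ hk)
      simp [Function.update_of_ne this]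
    · intro _ m' hm' hlt' hle'
      have : m' = m := by
        apply le_antisymm
        · exact hle' m h1 h2
        · exact h3 m' hm' hlt'
      subst this
      simpa using hy1

end Lim

theorem q_LIM (h1 : T_WW) (h2 : T_START) (h3 : T_STEP) : T_LIM := by
  classical
  intro Ω _ _ hΩ S hS hSt Θ _ _ _ _ f hf
  obtain ⟨W, hW⟩ := h1 Ω hΩ S hS Θ f
  obtain ⟨d0, hd0⟩ := h2 Ω hΩ S hS hSt Θ f W hf hW
  have hstep := h3 Ω hΩ S hS Θ f W hf hW
  have : Nonempty Θ := ⟨⊤⟩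
  obtain ⟨e, he⟩ := exists_surjective_nat Θ
  have hseq : ∀ d : Ω, ∃ s : ℕ → Ω, Monotone s ∧
      (Om d → (∀ n, s n < d) ∧ ∀ z < d, ∃ n, z < s n) := by
    intro d
    by_cases hd : Om d
    · obtain ⟨s, hs1, hs2, hs3⟩ := Pool.Rbw.Lim.seq hd
      exact ⟨s, hs1, fun _ => ⟨hs2, hs3⟩⟩
    · exact ⟨fun _ => d, monotone_const, fun h => absurd h hd⟩
  choose z hmono hz using hseq
  have hlt : ∀ v, ∀ d ∈ W v, ∀ n, z d n < d := fun v d hd n => (hz d (hS d (hW.om v d hd))).1 n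
  have hcof : ∀ v, ∀ d ∈ W v, ∀ w < d, ∃ n, w < z d n :=
    fun v d hd w hw => (hz d (hS d (hW.om v d hd))).2 w hw
  choose nx hn1 hn2 hn3 using Pool.RbwS.Lim.next hstep e z hlt
  let st : ℕ → {p : Finset Θ × (Θ → Ω) // ⊤ ∈ p.1 ∧ Good S f W p.1 p.2} :=
    fun n => Nat.rec ⟨⟨{⊤}, fun _ => d0⟩, Finset.mem_singleton_self _, hd0⟩ (fun n s => nx n s) n
  have st1 : ∀ n, st (n + 1) = nx n (st n) := fun n => rfl
  have F1 : ∀ n, (st (n + 1)).1.1 = insert (e n) (st n).1.1 := fun n => by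
    rw [st1]; exact hn1 n (st n)
  have x1 : ∀ n, ∀ k ∈ (st n).1.1, (st (n + 1)).1.2 k = (st n).1.2 k := fun n => by
    rw [st1]; exact hn2 n (st n)
  have z1 : ∀ n, e n ∉ (st n).1.1 → ∀ m ∈ (st n).1.1, e n < m →
      (∀ k ∈ (st n).1.1, e n < k → m ≤ k) →
        z ((st n).1.2 m) n < (st (n + 1)).1.2 (e n) := fun n => by
    rw [st1]; exact hn3 n (st n)
  have Fsub : ∀ n, (st n).1.1 ⊆ (st (n + 1)).1.1 := fun n => by
    rw [F1]; exact Finset.subset_insert _ _
  have Fmono : ∀ n m, n ≤ m → (st n).1.1 ⊆ (st m).1.1 := by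
    intro n m h
    induction m, h using Nat.le_induction with
    | base => exact Finset.Subset.refl _
    | succ m _ ih => exact ih.trans (Fsub m)
  have xeq : ∀ n m, n ≤ m → ∀ k ∈ (st n).1.1, (st m).1.2 k = (st n).1.2 k := by
    intro n m h
    induction m, h using Nat.le_induction with
    | base => intro k _; rfl
    | succ m h ih =>
      intro k hk
      rw [x1 m k (Fmono n m h hk), ih k hk]
  have ex : ∀ v, ∃ n, v ∈ (st n).1.1 := by
    intro v
    obtain ⟨n, hn⟩ := he v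
    exact ⟨n + 1, by rw [F1, hn]; exact Finset.mem_insert_self _ _⟩
  let X : Θ → Ω := fun v => (st (Nat.find (ex v))).1.2 v
  have Xe : ∀ n, ∀ v ∈ (st n).1.1, X v = (st n).1.2 v := by
    intro n v hv
    exact (xeq (Nat.find (ex v)) n (Nat.find_min' (ex v) hv) v (Nat.find_spec (ex v))).symm
  refine ⟨X, ?_, ?_, ?_, ?_⟩
  · intro v
    obtain ⟨n, hn⟩ := ex v
    rw [Xe n v hn]
    exact hW.om v _ ((st n).2.2.mem v hn)
  · intro a b hab
    obtain ⟨n, hn⟩ := ex a
    obtain ⟨m, hm⟩ := ex b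
    have ha' := Fmono n (max n m) (le_max_left _ _) hn
    have hb' := Fmono m (max n m) (le_max_right _ _) hm
    rw [Xe _ a ha', Xe _ b hb']
    exact (st (max n m)).2.2.mono a ha' b hb' hab
  · intro c a b hac hbc hfab
    obtain ⟨n, hn⟩ := ex a
    obtain ⟨m, hm⟩ := ex b
    obtain ⟨k, hk⟩ := ex c
    have ha' := Fmono n (max n (max m k)) (le_max_left _ _) hn
    have hb' := Fmono m (max n (max m k)) ((le_max_left _ _).trans (le_max_right _ _)) hm
    have hc' := Fmono k (max n (max m k)) ((le_max_right _ _).trans (le_max_right _ _)) hk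
    rw [Xe _ a ha', Xe _ b hb', Xe _ c hc'] at hfab
    exact (st _).2.2.tr c hc' a ha' b hb' hac hbc hfab
  · intro l hl0 hlim w hw
    obtain ⟨m0, hm0⟩ := ex l
    have hXl : X l ∈ W l := by
      rw [Xe m0 l hm0]; exact (st m0).2.2.mem l hm0
    obtain ⟨k, hk⟩ := hcof l (X l) hXl w hw
    set m := max m0 k with hmdef
    have hlm : l ∈ (st m).1.1 := Fmono m0 m (le_max_left _ _) hm0
    obtain ⟨a, hal, ha⟩ : ∃ a < l, ∀ c ∈ (st m).1.1, c < l → c < a := by
      by_cases hne : ((st m).1.1.filter (· < l)).Nonempty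
      · have hmx := Finset.max'_mem ((st m).1.1.filter (· < l)) hne
        rw [Finset.mem_filter] at hmx
        obtain ⟨ν, hν1, hν2⟩ := hlim _ hmx.2
        refine ⟨ν, hν2, ?_⟩
        intro c hc hcl
        exact lt_of_le_of_lt (Finset.le_max' _ _ (Finset.mem_filter.mpr ⟨hc, hcl⟩)) hν1
      · obtain ⟨μ, hμ⟩ := hl0
        refine ⟨μ, hμ, ?_⟩
        intro c hc hcl
        exact absurd ⟨c, Finset.mem_filter.mpr ⟨hc, hcl⟩⟩ hne
    have hQ : ∃ n, m ≤ n ∧ a ≤ e n ∧ e n < l := by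
      obtain ⟨j, hj⟩ := he a
      refine ⟨j, ?_, hj.ge, hj ▸ hal⟩
      by_contra hlt'
      push Not at hlt'
      have : e j ∈ (st m).1.1 := by
        apply Fmono (j + 1) m hlt'
        rw [F1]; exact Finset.mem_insert_self _ _
      rw [hj] at this
      exact lt_irrefl _ (ha a this hal)
    obtain ⟨hq1, hq2, hq3⟩ := Nat.find_spec hQ
    have hqm := fun j (hj : j < Nat.find hQ) => Nat.find_min hQ hj
    generalize Nat.find hQ = n at hq1 hq2 hq3 hqm
    have hall : ∀ j, m ≤ j → j ≤ n → ∀ c ∈ (st j).1.1, c < l → c < a := by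
      intro j hj
      induction j, hj using Nat.le_induction with
      | base => intro _; exact ha
      | succ j hj ih =>
        intro hjn c hc hcl
        rw [F1, Finset.mem_insert] at hc
        rcases hc with rfl | hc
        · by_contra hca
          push Not at hca
          exact hqm j hjn ⟨hj, hca, hcl⟩
        · exact ih (by omega) c hc hcl
    have hn := hall n hq1 le_rfl
    have hnot : e n ∉ (st n).1.1 := by
      intro h
      exact absurd (hn _ h hq3) (not_lt.mpr hq2)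
    have hln : l ∈ (st n).1.1 := Fmono m n hq1 hlm
    have hz1 := z1 n hnot l hln hq3 (by
      intro c hc hec
      by_contra hcl
      push Not at hcl
      exact absurd (hn c hc hcl) (not_lt.mpr (hq2.trans hec.le)))
    refine ⟨e n, hq3, ?_⟩
    have hen : e n ∈ (st (n + 1)).1.1 := by
      rw [F1]; exact Finset.mem_insert_self _ _
    rw [Xe (n + 1) (e n) hen]
    refine lt_trans (lt_of_lt_of_le hk ?_) hz1
    rw [Xe n l hln]
    exact hmono _ ((le_max_right _ _).trans hq1)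

end Pool.RbwS
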