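import Pool.Agent.Work.MP_a97ec2_h29.InterfaceS

/-!
# S1: a stationary set meets the closure points of every function
-/

namespace Pool.RbwS

open Cardinal Ordinal Pool.Rbw

theorem BS1_add_one {a : Cardinal.{0}} (h : a ≤ ℵ_ 1) : a + 1 ≤ ℵ_ 1 := by
  have h0 : ℵ₀ ≤ ℵ_ (1 : Ordinal.{0}) := aleph0_le_aleph 1
  calc a + 1 ≤ ℵ_ 1 + ℵ_ 1 := add_le_add h (one_le_aleph0.trans h0)
    _ = ℵ_ 1 := Cardinal.add_eq_self h0

theorem BS1_closure {Ω : Type} [LinearOrder Ω] [WellFoundedLT Ω] (hΩ : IsOmega2 Ω) (h : Ω → Ω)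
    (a : Ω) : ∃ d, a < d ∧ ∀ c < d, h c < d := by
  have hH : ∀ c : Ω, ∃ δ, c < δ ∧ ∀ c' ≤ c, h c' < δ := by
    intro c
    have hcard : #(insert c (h '' Set.Iic c) : Set Ω) ≤ ℵ_ 1 := by
      refine (Cardinal.mk_insert_le).trans (BS1_add_one (Cardinal.mk_image_le.trans ?_))
      rw [← Set.Iio_insert]
      exact (Cardinal.mk_insert_le).trans (BS1_add_one (hΩ.small c))
    obtain ⟨δ, hδ⟩ := hΩ.big _ hcard
    exact ⟨δ, hδ c (Set.mem_insert _ _),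
      fun c' hc' => hδ _ (Set.mem_insert_of_mem _ ⟨c', hc', rfl⟩)⟩
  choose H hH1 hH2 using hH
  let s : ℕ → Ω := fun n => Nat.rec a (fun _ x => H x) n
  have hcount : #(Set.range s) ≤ ℵ_ 1 :=
    ((Set.countable_range s).le_aleph0).trans (aleph0_le_aleph 1)
  obtain ⟨δ, hδ⟩ := hΩ.big (Set.range s) hcount
  let P : Set Ω := {x | ∀ n, s n < x}
  have hP : P.Nonempty := ⟨δ, fun n => hδ _ ⟨n, rfl⟩⟩
  obtain ⟨d, hd, hmin⟩ := WellFounded.has_min (wellFounded_lt (α := Ω)) P hP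
  refine ⟨d, hd 0, fun c hc => ?_⟩
  have hzP : c ∉ P := fun h1 => hmin c h1 hc
  have h2 : ∃ n, ¬ s n < c := by
    by_contra hcon
    push Not at hcon
    exact hzP hcon
  obtain ⟨n, hn⟩ := h2
  exact (hH2 (s n) c (not_lt.mp hn)).trans (hd (n + 1))

theorem q_S1 : T_S1 := by
  intro Ω _ _ hΩ S hS _ h
  have hC : Club {d : Ω | ∀ c < d, h c < d} := by
    refine ⟨fun a => ?_, fun γ _ hγ c hc => ?_⟩
    · obtain ⟨d, h1, h2⟩ := BS1_closure hΩ h a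
      exact ⟨d, h2, h1⟩
    · obtain ⟨d, hd, hcd⟩ := (lt_isLUB_iff hγ).mp hc
      exact (hd.1 c hcd).trans hd.2
  obtain ⟨d, hd1, hd2⟩ := hS _ hC
  exact ⟨d, hd1, hd2⟩

end Pool.RbwS
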