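import Mathlib
import Pool.Agent.Work.MP_a97ec2_h29.Interface

/-!
# Closed rainbow sets of every countable order type inside every stationary set (MP_a97ec2_lc)

The same blocks as in `Interface`, with a stationary set `S` of points of cofinality `ω` in place of
the set of all points of cofinality `ω`.
-/

namespace Pool.RbwS

open Cardinal Ordinal Pool.Rbw

variable {Ω : Type} [LinearOrder Ω] [WellFoundedLT Ω] {Θ : Type} [LinearOrder Θ] [WellFoundedLT Θ]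

/-- the `d ∈ S` above the finite set `b` for which `f(·,d)` is injective on `b` -/
def TT (S : Set Ω) (f : Ω → Ω → Ω) (b : Finset Ω) : Set Ω :=
  {d | d ∈ S ∧ (∀ a ∈ b, a < d) ∧ ∀ a ∈ b, ∀ a' ∈ b, f a d = f a' d → a = a'}

/-- the hierarchy `W ν` -/
structure IsW (S : Set Ω) (f : Ω → Ω → Ω) (W : Θ → Set Ω) : Prop where
  om : ∀ ν, ∀ d ∈ W ν, d ∈ S
  unc : ∀ ν, ∀ d ∈ W ν, ∀ ν' < ν, ∀ b : Finset Ω, (∀ a ∈ b, a < d) → Stat (TT S f b) →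
    ∀ z < d, ¬ {e : Ω | e ∈ TT S f b ∧ e ∈ W ν' ∧ z < e ∧ e < d}.Countable
  club : ∀ ν, ∃ h : Ω → Ω, ∀ d ∈ S, (∀ c < d, h c < d) → d ∈ W ν

/-- good finite approximations -/
structure Good (S : Set Ω) (f : Ω → Ω → Ω) (W : Θ → Set Ω) (F : Finset Θ) (x : Θ → Ω) : Prop where
  mono : ∀ μ ∈ F, ∀ ν ∈ F, μ < ν → x μ < x ν
  mem : ∀ ν ∈ F, x ν ∈ W ν
  stat : ∀ G ⊆ F, (∀ μ ∈ G, ∀ μ' ∈ F, μ' < μ → μ' ∈ G) → Stat (TT S f (G.image x))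
  tr : ∀ ν ∈ F, ∀ μ ∈ F, ∀ μ' ∈ F, μ < ν → μ' < ν → f (x μ) (x ν) = f (x μ') (x ν) → μ = μ'

/-- closed unbounded sets -/
def Club (C : Set Ω) : Prop := (∀ a, ∃ c ∈ C, a < c) ∧
  ∀ γ : Ω, (C ∩ Set.Iio γ).Nonempty → IsLUB (C ∩ Set.Iio γ) γ → γ ∈ C

/-- stationary sets -/
def Stationary (S : Set Ω) : Prop := ∀ C : Set Ω, Club C → (S ∩ C).Nonempty

/-! ## Blocks -/

/-- S1 (new): a stationary set meets the closure points of every function `h`: they form a club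
(unbounded by the iteration of `Rbw.T_S1`; closed: for `c < γ` there is a closure point `d` with
`c < d < γ`, so `h c < d < γ`) -/
def T_S1 : Prop := ∀ (Ω : Type) [LinearOrder Ω] [WellFoundedLT Ω], IsOmega2 Ω →
  ∀ S : Set Ω, Stationary S → (∀ d ∈ S, Om d) → Stat S

/-- ZC, as in `Rbw.T_ZC` -/
def T_ZC : Prop := ∀ (Ω : Type) [LinearOrder Ω] [WellFoundedLT Ω], IsOmega2 Ω →
  ∀ S : Set Ω, (∀ d ∈ S, Om d) → ∀ f : Ω → Ω → Ω, Bdd f → ∀ b : Finset Ω, Stat (TT S f b) →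
    {x : Ω | ¬ Stat (TT S f (insert x b))}.Countable

/-- WW, as in `Rbw.T_WW` -/
def T_WW : Prop := ∀ (Ω : Type) [LinearOrder Ω] [WellFoundedLT Ω], IsOmega2 Ω →
  ∀ S : Set Ω, (∀ d ∈ S, Om d) →
  ∀ (Θ : Type) [LinearOrder Θ] [WellFoundedLT Θ] [Countable Θ], ∀ f : Ω → Ω → Ω,
    ∃ W : Θ → Set Ω, IsW S f W

/-- START, as in `Rbw.T_START` -/
def T_START : Prop := ∀ (Ω : Type) [LinearOrder Ω] [WellFoundedLT Ω], IsOmega2 Ω →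
  ∀ S : Set Ω, (∀ d ∈ S, Om d) → Stat S →
  ∀ (Θ : Type) [LinearOrder Θ] [WellFoundedLT Θ] [Countable Θ] [OrderTop Θ],
    ∀ (f : Ω → Ω → Ω) (W : Θ → Set Ω), Bdd f → IsW S f W → ∃ d : Ω, Good S f W {⊤} (fun _ => d)

/-- STEP, as in `Rbw.T_STEP` -/
def T_STEP : Prop := ∀ (Ω : Type) [LinearOrder Ω] [WellFoundedLT Ω], IsOmega2 Ω →
  ∀ S : Set Ω, (∀ d ∈ S, Om d) →
  ∀ (Θ : Type) [LinearOrder Θ] [WellFoundedLT Θ] [Countable Θ],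
    ∀ (f : Ω → Ω → Ω) (W : Θ → Set Ω), Bdd f → IsW S f W → ∀ (F : Finset Θ) (x : Θ → Ω),
      Good S f W F x → ∀ ν ∉ F, ∀ μ₁ ∈ F, ν < μ₁ → (∀ μ ∈ F, ν < μ → μ₁ ≤ μ) → ∀ z < x μ₁,
        ∃ v : Ω, z < v ∧ v < x μ₁ ∧ Good S f W (insert ν F) (Function.update x ν v)

/-- LIM, as in `Rbw.T_LIM`, with values in `S` -/
def T_LIM : Prop := ∀ (Ω : Type) [LinearOrder Ω] [WellFoundedLT Ω], IsOmega2 Ω →
  ∀ S : Set Ω, (∀ d ∈ S, Om d) → Stat S →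
  ∀ (Θ : Type) [LinearOrder Θ] [WellFoundedLT Θ] [Countable Θ] [OrderTop Θ],
    ∀ (f : Ω → Ω → Ω), Bdd f → ∃ x : Θ → Ω, (∀ ν, x ν ∈ S) ∧ StrictMono x ∧
      (∀ ν μ μ' : Θ, μ < ν → μ' < ν → f (x μ) (x ν) = f (x μ') (x ν) → μ = μ') ∧
      ∀ lam : Θ, (∃ μ, μ < lam) → (∀ μ < lam, ∃ ν, μ < ν ∧ ν < lam) →
        ∀ z < x lam, ∃ ν < lam, z < x ν

/-- FIN, as in `Rbw.T_FIN`, with `A ⊆ S` -/
def T_FIN : Prop := ∀ (Ω : Type) [LinearOrder Ω] [WellFoundedLT Ω],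
  Ordinal.type (fun a b : Ω => a < b) = ω_ 2 → ∀ S : Set Ω, Stationary S → (∀ d ∈ S, Om d) →
    ∀ f : Ω → Ω → Ω, Normal f → OmegaBounded f →
    ∀ (Θ : Type) [LinearOrder Θ] [WellFoundedLT Θ] [Countable Θ],
      ∃ A : Set Ω, A ⊆ S ∧ Nonempty (Θ ≃o A) ∧ Closed A ∧ Rainbow f A

end Pool.RbwS
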