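import Mathlib
import Pool.Agent.Work.MP_a97ec2_h29.InterfaceS

/-!
# MP_a97ec2_lc, block START inside S (after helper16): the top value
-/

namespace Pool.RbwS

open Cardinal Ordinal Pool.Rbw

theorem q_STARTx (h2 : T_ZC) : T_START := by
  intro Ω _ _ hΩ S hSO hS Θ _ _ _ _ f W hB hW
  have hE : TT S f (∅ : Finset Ω) = S := by
    ext d
    simp [TT]
  have hSE : Stat (TT S f (∅ : Finset Ω)) := by rw [hE]; exact hS
  have hZ := h2 Ω hΩ S hSO f hB ∅ hSE
  obtain ⟨δ, hδ⟩ := hΩ.big {x : Ω | ¬ Stat (TT S f (insert x (∅ : Finset Ω)))} (by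
    have h3 : #{x : Ω | ¬ Stat (TT S f (insert x (∅ : Finset Ω)))} ≤ ℵ₀ := hZ.le_aleph0
    exact h3.trans (Cardinal.aleph0_le_aleph 1))
  obtain ⟨h, hh⟩ := hW.club (⊤ : Θ)
  obtain ⟨d, hd, hcl⟩ := hS (fun c => max (h c) δ)
  obtain ⟨s, hs, -⟩ := hSO d hd
  have hδd : δ < d := lt_of_le_of_lt (le_max_right _ _) (hcl _ (hs 0))
  have hdW : d ∈ W ⊤ := hh d hd fun c hc => lt_of_le_of_lt (le_max_left _ _) (hcl c hc)
  have hdZ : Stat (TT S f (insert d (∅ : Finset Ω))) := by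
    by_contra hcon
    exact lt_asymm hδd (hδ d hcon)
  refine ⟨d, ?_, ?_, ?_, ?_⟩
  · intro μ hμ ν hν hlt
    rw [Finset.mem_singleton] at hμ hν
    rw [hμ, hν] at hlt
    exact absurd hlt (lt_irrefl _)
  · intro ν hν
    rw [Finset.mem_singleton] at hν
    rw [hν]
    exact hdW
  · intro G hG _
    rcases Finset.subset_singleton_iff.1 hG with h | h
    · rw [h, Finset.image_empty]; exact hSE
    · rw [h, Finset.image_singleton]; exact hdZ
  · intro ν hν μ hμ μ' _ hlt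
    rw [Finset.mem_singleton] at hμ hν
    rw [hμ, hν] at hlt
    exact absurd hlt (lt_irrefl _)

end Pool.RbwS
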