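import Pool.Agent.Work.MP_a97ec2_h29.InterfaceS

set_option autoImplicit false

namespace Pool.RbwS

open Cardinal Ordinal Pool.Rbw

theorem q_STEP (hZC : T_ZC) : T_STEP := by
  classical
  intro Ω _ _ hΩ S hS Θ _ _ _ f W hbdd hW F x hG ν hν μ₁ hμ₁ hνμ hnext z hz
  set L : Finset Θ := F.filter (fun μ => μ < ν) with hL
  set b : Finset Ω := L.image x with hb
  have hLF : L ⊆ F := Finset.filter_subset _ _
  have hbx : ∀ a ∈ b, a < x μ₁ := by
    intro a ha
    obtain ⟨μ, hμ, rfl⟩ := Finset.mem_image.1 ha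
    have h1 := Finset.mem_filter.1 hμ
    exact hG.mono μ h1.1 μ₁ hμ₁ (h1.2.trans hνμ)
  have hbs : Stat (TT S f b) := by
    refine hG.stat L hLF fun μ hμ μ' hμ' hlt => ?_
    exact Finset.mem_filter.2 ⟨hμ', hlt.trans (Finset.mem_filter.1 hμ).2⟩
  obtain ⟨z', hzz', hbz', hz'⟩ : ∃ z', z ≤ z' ∧ (∀ a ∈ b, a ≤ z') ∧ z' < x μ₁ := by
    refine ⟨(insert z b).max' (Finset.insert_nonempty _ _),
      Finset.le_max' _ _ (Finset.mem_insert_self _ _),
      fun a ha => Finset.le_max' _ _ (Finset.mem_insert_of_mem ha), ?_⟩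
    rw [Finset.max'_lt_iff]
    intro y hy
    rcases Finset.mem_insert.1 hy with h | h
    · rw [h]; exact hz
    · exact hbx y h
  have hunc := hW.unc μ₁ (x μ₁) (hG.mem μ₁ hμ₁) ν hνμ b hbx hbs z' hz'
  set C1 : Set Ω := ⋃ G ∈ {G : Finset Θ | G ∈ F.powerset ∧ Stat (TT S f (G.image x))},
    {e : Ω | ¬ Stat (TT S f (insert e (G.image x)))} with hC1
  set C2 : Set Ω := ⋃ μ ∈ (F : Set Θ), ⋃ μ' ∈ (F : Set Θ),
    {a : Ω | a < x μ ∧ f a (x μ) = f (x μ') (x μ)} with hC2
  have hC1c : C1.Countable := by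
    refine Set.Countable.biUnion ?_ fun G hGm => hZC Ω hΩ S hS f hbdd (G.image x) hGm.2
    refine (F.powerset.countable_toSet).mono ?_
    intro G hG'
    exact hG'.1
  have hC2c : C2.Countable := by
    refine Set.Countable.biUnion F.countable_toSet fun μ _ => ?_
    exact Set.Countable.biUnion F.countable_toSet fun μ' _ => hbdd (x μ) (f (x μ') (x μ))
  obtain ⟨v, hv, hvC⟩ : ∃ v, v ∈ {e : Ω | e ∈ TT S f b ∧ e ∈ W ν ∧ z' < e ∧ e < x μ₁} ∧
      v ∉ C1 ∪ C2 := by
    by_contra hcon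
    push Not at hcon
    exact hunc ((hC1c.union hC2c).mono fun e he => hcon e he)
  obtain ⟨hvT, hvW, hvz, hvx⟩ := hv
  rw [Set.mem_union, not_or] at hvC
  obtain ⟨hv1, hv2⟩ := hvC
  have hv1' : ∀ G ⊆ F, Stat (TT S f (G.image x)) → Stat (TT S f (insert v (G.image x))) := by
    intro G hGF hst
    by_contra hcon
    apply hv1
    rw [hC1, Set.mem_iUnion₂]
    exact ⟨G, ⟨Finset.mem_powerset.2 hGF, hst⟩, hcon⟩
  have hv2' : ∀ μ ∈ F, ∀ μ' ∈ F, v < x μ → f v (x μ) ≠ f (x μ') (x μ) := by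
    intro μ hμ μ' hμ' hlt he
    apply hv2
    rw [hC2, Set.mem_iUnion₂]
    refine ⟨μ, hμ, ?_⟩
    rw [Set.mem_iUnion₂]
    exact ⟨μ', hμ', hlt, he⟩
  set y : Θ → Ω := Function.update x ν v with hy
  have yν : y ν = v := Function.update_self _ _ _
  have yF : ∀ μ ∈ F, y μ = x μ := by
    intro μ hμ
    have : μ ≠ ν := fun h => hν (h ▸ hμ)
    exact Function.update_of_ne this _ _
  have himg : ∀ G ⊆ F, G.image y = G.image x := by
    intro G hGF
    exact Finset.image_congr fun μ hμ => yF μ (hGF hμ)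
  have hxle : ∀ μ ∈ F, ν < μ → x μ₁ ≤ x μ := by
    intro μ hμ hlt
    rcases eq_or_lt_of_le (hnext μ hμ hlt) with h | h
    · rw [h]
    · exact (hG.mono μ₁ hμ₁ μ hμ h).le
  have hvup : ∀ μ ∈ F, ν < μ → v < x μ := fun μ hμ hlt => lt_of_lt_of_le hvx (hxle μ hμ hlt)
  have hbmem : ∀ μ ∈ F, μ < ν → x μ ∈ b := fun μ hμ hlt =>
    Finset.mem_image_of_mem x (Finset.mem_filter.2 ⟨hμ, hlt⟩)
  refine ⟨v, lt_of_le_of_lt hzz' hvz, hvx, ⟨?_, ?_, ?_, ?_⟩⟩
  · intro μ hμ ν₀ hν₀ hlt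
    rcases Finset.mem_insert.1 hμ with rfl | hμF
    · rcases Finset.mem_insert.1 hν₀ with rfl | hνF
      · exact absurd hlt (lt_irrefl _)
      · rw [← hy, yν, yF ν₀ hνF]
        exact hvup ν₀ hνF hlt
    · rcases Finset.mem_insert.1 hν₀ with rfl | hνF
      · rw [← hy, yν, yF μ hμF]
        exact lt_of_le_of_lt (hbz' _ (hbmem μ hμF hlt)) hvz
      · rw [← hy, yF μ hμF, yF ν₀ hνF]
        exact hG.mono μ hμF ν₀ hνF hlt
  · intro ν₀ hν₀
    rcases Finset.mem_insert.1 hν₀ with rfl | hνF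
    · rw [← hy, yν]
      exact hvW
    · rw [← hy, yF ν₀ hνF]
      exact hG.mem ν₀ hνF
  · intro G hGs hdown
    rw [← hy]
    by_cases hνG : ν ∈ G
    · have hG'F : G.erase ν ⊆ F := by
        intro μ hμ
        have h1 := Finset.mem_erase.1 hμ
        rcases Finset.mem_insert.1 (hGs h1.2) with h | h
        · exact absurd h h1.1
        · exact h
      have hst : Stat (TT S f ((G.erase ν).image x)) := by
        refine hG.stat _ hG'F fun μ hμ μ' hμ' hlt => ?_
        refine Finset.mem_erase.2 ⟨fun h => hν (h ▸ hμ'), ?_⟩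
        exact hdown μ (Finset.mem_erase.1 hμ).2 μ' (Finset.mem_insert_of_mem hμ') hlt
      have e : G.image y = insert v ((G.erase ν).image x) := by
        conv_lhs => rw [← Finset.insert_erase hνG]
        rw [Finset.image_insert, yν, himg _ hG'F]
      rw [e]
      exact hv1' _ hG'F hst
    · have hGF : G ⊆ F := by
        intro μ hμ
        rcases Finset.mem_insert.1 (hGs hμ) with h | h
        · exact absurd (h ▸ hμ) hνG
        · exact h
      rw [himg G hGF]
      exact hG.stat G hGF fun μ hμ μ' hμ' hlt =>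
        hdown μ hμ μ' (Finset.mem_insert_of_mem hμ') hlt
  · intro ν₀ hν₀ μ hμ μ' hμ' hlt hlt' he
    rw [← hy] at he
    rcases Finset.mem_insert.1 hν₀ with rfl | hνF
    · have hμF : μ ∈ F := by
        rcases Finset.mem_insert.1 hμ with h | h
        · exact absurd hlt (by rw [h]; exact lt_irrefl _)
        · exact h
      have hμ'F : μ' ∈ F := by
        rcases Finset.mem_insert.1 hμ' with h | h
        · exact absurd hlt' (by rw [h]; exact lt_irrefl _)
        · exact h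
      rw [yν, yF μ hμF, yF μ' hμ'F] at he
      have hxx := hvT.2.2 _ (hbmem μ hμF hlt) _ (hbmem μ' hμ'F hlt') he
      rcases lt_trichotomy μ μ' with h | h | h
      · exact absurd hxx (hG.mono μ hμF μ' hμ'F h).ne
      · exact h
      · exact absurd hxx (hG.mono μ' hμ'F μ hμF h).ne'
    · rw [yF ν₀ hνF] at he
      rcases Finset.mem_insert.1 hμ with h1 | hμF
      · rcases Finset.mem_insert.1 hμ' with h2 | hμ'F
        · rw [h1, h2]
        · rw [h1, yν, yF μ' hμ'F] at he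
          exact absurd he (hv2' ν₀ hνF μ' hμ'F (hvup ν₀ hνF (h1 ▸ hlt)))
      · rcases Finset.mem_insert.1 hμ' with h2 | hμ'F
        · rw [h2, yν, yF μ hμF] at he
          exact absurd he.symm (hv2' ν₀ hνF μ hμF (hvup ν₀ hνF (h2 ▸ hlt')))
        · rw [yF μ hμF, yF μ' hμ'F] at he
          exact hG.tr ν₀ hνF μ hμF μ' hμ'F hlt hlt' he

end Pool.RbwS
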