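import Mathlib
import Pool.Agent.Work.MP_a97ec2_h29.InterfaceS

/-!
# Block ZC inside `S`
-/

namespace Pool.RbwS

open Cardinal Ordinal Pool.Rbw

theorem q_ZCx : T_ZC := by
  classical
  intro Ω _ _ hΩ S hS f hf b hb
  by_contra hunc
  have h1 : ℵ_ 1 ≤ #{x : Ω | ¬ Stat (TT S f (insert x b))} := by
    have h2 : ℵ₀ < #{x : Ω | ¬ Stat (TT S f (insert x b))} := by
      by_contra h3
      exact hunc (Cardinal.le_aleph0_iff_set_countable.1 (not_lt.1 h3))
    rw [← Cardinal.succ_aleph0]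
    exact Order.succ_le_of_lt h2
  obtain ⟨X, hXB, hX⟩ := Cardinal.le_mk_iff_exists_subset.1 h1
  have h3 : ∀ x : Ω, ∃ k : Ω → Ω, x ∈ X → ∀ d ∈ TT S f (insert x b), ∃ c < d, d ≤ k c := by
    intro x
    by_cases hx : x ∈ X
    · have h4 : ¬ Stat (TT S f (insert x b)) := hXB hx
      unfold Stat at h4
      push Not at h4
      obtain ⟨k, hk⟩ := h4
      exact ⟨k, fun _ => hk⟩
    · exact ⟨id, fun h => absurd h hx⟩
  choose k hk using h3
  have h5 : ∀ c : Ω, ∃ δ : Ω, ∀ x ∈ X, k x c < δ := by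
    intro c
    have hcard : #((fun x => k x c) '' X) ≤ ℵ_ 1 := (Cardinal.mk_image_le).trans hX.le
    obtain ⟨δ, hδ⟩ := hΩ.big _ hcard
    exact ⟨δ, fun x hx => hδ _ ⟨x, hx, rfl⟩⟩
  choose δ hδ using h5
  obtain ⟨δX, hδX⟩ := hΩ.big X hX.le
  obtain ⟨d, hd, hc⟩ := hb (fun c => max (δ c) δX)
  obtain ⟨s, hs, -⟩ := hS d hd.1
  have hδd : δX < d := lt_of_le_of_lt (le_max_right _ _) (hc (s 0) (hs 0))
  have hsub : X ⊆ ⋃ y ∈ b, {a : Ω | a < d ∧ f a d = f y d} := by
    intro x hx
    by_contra hx2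
    have hx3 : ∀ y ∈ b, f x d ≠ f y d := by
      intro y hy he
      apply hx2
      simp only [Set.mem_iUnion, Set.mem_setOf_eq]
      exact ⟨y, hy, (hδX x hx).trans hδd, he⟩
    have hmem : d ∈ TT S f (insert x b) := by
      refine ⟨hd.1, fun a ha => ?_, fun a ha a' ha' he => ?_⟩
      · rcases Finset.mem_insert.1 ha with h | h
        · rw [h]; exact (hδX x hx).trans hδd
        · exact hd.2.1 a h
      · rcases Finset.mem_insert.1 ha with h | h <;> rcases Finset.mem_insert.1 ha' with h' | h'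
        · rw [h, h']
        · subst h
          exact absurd he (hx3 a' h')
        · subst h'
          exact absurd he.symm (hx3 a h)
        · exact hd.2.2 a h a' h' he
    obtain ⟨c, hcd, hle⟩ := hk x hx d hmem
    have h6 := hc c hcd
    have h7 := (hδ c x hx).trans_le (le_max_left (δ c) δX)
    exact absurd (hle.trans_lt (h7.trans h6)) (lt_irrefl _)
  have hcount : X.Countable := by
    refine Set.Countable.mono hsub ?_
    exact Set.Countable.biUnion (Finset.countable_toSet b) (fun y _ => hf d (f y d))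
  have h8 : #X ≤ ℵ₀ := Cardinal.le_aleph0_iff_set_countable.2 hcount
  rw [hX, ← Cardinal.succ_aleph0] at h8
  exact absurd (Order.lt_succ ℵ₀) (not_lt.2 h8)

end Pool.RbwS
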