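import Mathlib
import Pool.Agent.Work.MP_a97ec2_h29.B_OM2
import Pool.Agent.Work.MP_a97ec2_h29.B_UNB
import Pool.Agent.Work.MP_a97ec2_h29.BS_S1
import Pool.Agent.Work.MP_a97ec2_h29.BS_ZCx
import Pool.Agent.Work.MP_a97ec2_h29.BS_WW
import Pool.Agent.Work.MP_a97ec2_h29.BS_STARTx
import Pool.Agent.Work.MP_a97ec2_h29.BS_STEP
import Pool.Agent.Work.MP_a97ec2_h29.BS_LIM
import Pool.Agent.Work.MP_a97ec2_h29.BS_FIN

/-!
# Closed rainbow sets inside stationary sets (MP_a97ec2_lc): assembly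
-/

namespace Pool.RbwS

theorem main : T_FIN :=
  p_FIN Pool.Rbw.p_OM2 q_S1 (q_LIM (q_WW Pool.Rbw.p_UNB) (q_STARTx q_ZCx) (q_STEP q_ZCx))

end Pool.RbwS
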