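import Pool.Agent.Work.MP_a97ec2_h29.Interface

/-!
# ZC (second copy, helper93)
-/

namespace Pool.Rbw

open Cardinal Ordinal

theorem p_ZC : T_ZC := by
  classical
  intro Ω _ _ hΩ f hf b hb
  by_contra hZ
  have h1 : ℵ_ 1 ≤ #{x : Ω | ¬ Stat (TT f (insert x b))} := by
    have h0 : ℵ₀ < #{x : Ω | ¬ Stat (TT f (insert x b))} := by
      rw [← not_le]
      intro h
      exact hZ (Cardinal.le_aleph0_iff_set_countable.mp h)
    rw [← Cardinal.succ_aleph0]
    exact Order.succ_le_of_lt h0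
  obtain ⟨X, hXZ, hX⟩ := Cardinal.le_mk_iff_exists_subset.mp h1
  have hbad : ∀ x ∈ X, ∃ h : Ω → Ω, ∀ d ∈ TT f (insert x b), ∃ c < d, d ≤ h c := by
    intro x hx
    have h2 := hXZ hx
    change ¬ Stat _ at h2
    unfold Stat at h2
    push Not at h2
    exact h2
  choose! g hg using hbad
  have hH : ∀ c : Ω, ∃ δ, (∀ x ∈ X, x < δ) ∧ ∀ x ∈ X, g x c < δ := by
    intro c
    obtain ⟨δ1, h1⟩ := hΩ.big X hX.le
    obtain ⟨δ2, h2⟩ := hΩ.big ((fun x => g x c) '' X) (Cardinal.mk_image_le.trans hX.le)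
    exact ⟨max δ1 δ2, fun x hx => lt_max_of_lt_left (h1 x hx),
      fun x hx => lt_max_of_lt_right (h2 _ ⟨x, hx, rfl⟩)⟩
  choose h hh1 hh2 using hH
  obtain ⟨d, ⟨hOm, hbd, hinj⟩, hdc⟩ := hb h
  obtain ⟨s, hs, -⟩ := id hOm
  have hXd : ∀ x ∈ X, x < d := fun x hx => (hh1 (s 0) x hx).trans (hdc _ (hs 0))
  have hsub : X ⊆ ⋃ y ∈ b, {a : Ω | a < d ∧ f a d = f y d} := by
    intro x hx
    have hnot : d ∉ TT f (insert x b) := by
      intro hmem
      obtain ⟨c, hc, hcd⟩ := hg x hx d hmem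
      exact lt_irrefl d ((lt_of_le_of_lt hcd (hh2 c x hx)).trans (hdc c hc))
    by_contra hcon
    apply hnot
    refine ⟨hOm, fun a ha => ?_, fun a ha a' ha' heq => ?_⟩
    · rcases Finset.mem_insert.mp ha with h3 | h3
      · rw [h3]; exact hXd x hx
      · exact hbd a h3
    · rcases Finset.mem_insert.mp ha with h3 | h3
      · rcases Finset.mem_insert.mp ha' with h4 | h4
        · rw [h3, h4]
        · rw [h3] at heq
          exact (hcon (Set.mem_iUnion₂.mpr ⟨a', h4, hXd x hx, heq⟩)).elim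
      · rcases Finset.mem_insert.mp ha' with h4 | h4
        · rw [h4] at heq
          exact (hcon (Set.mem_iUnion₂.mpr ⟨a, h3, hXd x hx, heq.symm⟩)).elim
        · exact hinj a h3 a' h4 heq
  have hcount : X.Countable := (b.countable_toSet.biUnion fun y _ => hf d (f y d)).mono hsub
  have h5 : #X ≤ ℵ₀ := hcount.le_aleph0
  rw [hX] at h5
  exact absurd h5 (not_le.mpr aleph0_lt_aleph_one)

end Pool.Rbw
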